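import Pool.Agent.K7.H45.ADJ.Main

/-!
# Triangle detection in adjacency lists by word circuits: number of reads and treewidth

The input is a simple graph with `m` edges in the standard representation by adjacency lists: an
array with the `2 m` entries of the lists of the neighbours of the vertices `0, 1, …, n - 1`, each of
them in increasing order, and the array of the offsets of the lists. As the item at a place of the
first array we even give the pair `(v, w)` (the vertex and its neighbour). We consider straight-line
programs for such inputs (`WCirc`, starting library `Pool.Agent.Y631.Wc`): there are gates, each of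
them holds a word (an element of a finite set `Z`, for instance the words of `w` bits), and computes
an ARBITRARY function of at most `κ` items and words of earlier gates. The relevant parameters are

* the number of reads `C.reads`: the number of wires from items to gates; this is a lower bound for
  the running time,
* the treewidth `θ` of the graph of the gates. It is at most `κ + 1` times the number of registers
  (not proved here), but a circuit of small treewidth may use arbitrarily many words at the same
  time.

**Result.** If a circuit with `C.reads ≤ r m` decides whether the graph has a triangle, and the words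
fit in `w` bits, then `m / 2 ^ (72 r + 3) ≤ w · 90000 r² (κ + 1) (θ + 1) + 1`. So for words of
`O (log m)` bits and treewidth at most `m ^ (1 - ε)` one needs `Ω (ε m log m)` reads, a superlinear
number. The starting result `TreewidthTimesReads` has this for graphs that are given by an arbitrary
(unsorted) list of the edges, in which every edge occurs once, so that the bound might have come
from the task to bring the edges together; here the lists are sorted, every edge occurs in the
lists of both of its ends, and the offsets are known.

**Proof.** The places are divided into groups of four places, and a group holds only one bit `β_i`: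
the vertices `2 + 2 i` and `3 + 2 i` are adjacent to the two hubs `0` and `1`, in the order which is
given by the bit. This is seen at one place in the list of each hub and in the lists of the two
vertices, and these places are always the same since all degrees are constant. The circuit is
considered as a circuit that reads groups. By the starting library there are sets `A`, `E` of
`m / 2 ^ O (r)` groups that are read on different sides only. The vertices `3 + 2 i` of the groups
of `A` are matched by edges with those of the groups of `E` (the other ones get a pendant edge, so
that no place moves). There is a triangle iff two matched vertices have the same bit.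
-/

set_option autoImplicit false

namespace Pool.Agent.Results.MP_ad5e8e_lc.AdjacencyLists

open Pool.Agent.Y631.Wc Pool.Agent.K7.H45.ADJ

/-- (A) Let `C` be a word circuit for the adjacency lists of graphs with `m` edges and `n ≥ 2 m`
vertices, whose gates have fan-in at most `κ` and values in a set of at most `L ≥ 2` elements, with
at most `r m` reads, and of treewidth at most `θ`.

1. If `C` (nondeterministic) accepts exactly the triangle-free graphs then
   `2 ^ (m / 2 ^ (72 r + 3)) ≤ L ^ (90000 r² (κ + 1) (θ + 1))`.
2. If `C` has at most one accepting computation for each input (which holds if the gates compute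
   functions) and accepts exactly the graphs with a triangle then
   `2 ^ (m / 2 ^ (72 r + 3)) ≤ L ^ (90000 r² (κ + 1) (θ + 1)) + 1`.

(B) For all `c`, `κ` and `0 < ε ≤ 1` and all large `m`: if random circuits of fan-in `κ` whose gates
have at most `m ^ c` values (words of `c log m` bits), of treewidth at most `m ^ (1 - ε)`, always
accept exactly the triangle-free graphs, or are unambiguous and always accept exactly the graphs
with a triangle (each of the circuits may do the one or the other), then the expected number of
reads is at least `(ε / 360) m log₂ m`.

The circuits have to be correct only for adjacency lists of simple graphs (`IsAdj`). -/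
theorem result :
    (∀ {r κ θ m n L : ℕ} (_ : 1 ≤ r) (_ : 2 ≤ L) (_ : 2 * m ≤ n)
      {Z : Type} [Fintype Z] (_ : Fintype.card Z ≤ L) (C : WCirc (Place n m) (ℕ × ℕ) Z)
      (_ : C.FanIn κ) (_ : C.TreewidthLE θ) (_ : C.reads ≤ r * m),
      ((∀ x, IsAdj x → (C.Accepts x ↔ ¬ HasTriangle x)) →
        2 ^ (m / 2 ^ (72 * r + 3)) ≤ L ^ (90000 * r ^ 2 * (κ + 1) * (θ + 1))) ∧
      (C.Unambiguous → (∀ x, IsAdj x → (C.Accepts x ↔ HasTriangle x)) →
        2 ^ (m / 2 ^ (72 * r + 3)) ≤ L ^ (90000 * r ^ 2 * (κ + 1) * (θ + 1)) + 1)) ∧
    ∀ (c κ : ℕ) (ε : ℝ), 0 < ε → ε ≤ 1 → ∃ m₀ : ℕ, ∀ m ≥ m₀, ∀ n ≥ 2 * m, ∀ (Z : Type)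
      [Fintype Z], Fintype.card Z ≤ m ^ c → ∀ (Ω : Type) [Fintype Ω] (p : Ω → ℝ),
      (∀ ω, 0 ≤ p ω) → ∑ ω, p ω = 1 →
      ∀ (C : Ω → WCirc (Place n m) (ℕ × ℕ) Z) (θ : ℕ), (θ : ℝ) ≤ (m : ℝ) ^ (1 - ε) →
        (∀ ω, (C ω).FanIn κ ∧ (C ω).TreewidthLE θ ∧
          (((C ω).Unambiguous ∧ ∀ x, IsAdj x → ((C ω).Accepts x ↔ HasTriangle x)) ∨
            (∀ x, IsAdj x → ((C ω).Accepts x ↔ ¬ HasTriangle x)))) →
        ε / 360 * (m * Real.logb 2 m) ≤ ∑ ω, p ω * (C ω).reads :=
  ⟨fun hr hL hn _ _ hZ C hκ hθ hR => adj_bounds hr hL hn hZ C hκ hθ hR, adj_random⟩

end Pool.Agent.Results.MP_ad5e8e_lc.AdjacencyLists
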