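import Pool.Agent.K7.H45.FDT.Edge

/-!
# Triangle detection in edge lists needs many reads or much memory

We consider Boolean circuits with AND gates of fan-in two, OR gates of any fan-in and negations at
the inputs, whose inputs are the bits of a list of the `m` edges `{p, q}`, `p < q`, of a simple graph
(the ends are written in binary, with `w + 1` bits each). Such a circuit accepts if and only if it
has a proof tree all of whose leaves are true literals; the formal degree in an input bit is (at
most) the largest number of leaves of a proof tree with this bit, that is, the number of times this
bit is read. Nondeterministic, in particular deterministic, branching programs are such circuits (the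
logarithm of the size is the memory plus the logarithm of the time, and a bit which is read at most
`k` times on every path has degree at most `k`), and so are nondeterministic programs with a stack.

The circuits have to recognise the lists of graphs without a triangle. (The lists of graphs with a
triangle are recognised by a disjunction of small conjunctions, each of which reads the bits of three
edges once.) We show that the size is `2 ^ Ω (m)` if the degrees in the bits are bounded by a
constant; it is enough that this holds on average for the `m` least significant bits of the larger
ends of the edges, while all the other bits may be read as often as one likes. So algorithms of this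
kind with a memory of `o (m)` bits must read these bits more than a constant number of times on
average, and with a memory of `O (log m)` bits they must read them `Ω (log m)` times. This remains
true for circuits with one-sided randomness, which find out only with probability `2 ^ (- m / D)` that
there is no triangle.

Proof. The proof trees are cut into few pieces in which only few of the free bits are read; a random
placement of a matching on the places of the list makes many pairs monochromatic. The matching is
coded in the other bits: with `M = ⌊m / 2⌋` the list contains the edges `{0, 2 v + 2 + x_v}`, where
`x_v` is the free bit, for `v < M`, and the edges `{2 v + 3, 2 v' + 3}` for the pairs `v < v'` of the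
matching, and a triangle can only be `{0, 2 v + 3, 2 v' + 3}`, for a pair with `x_v = x_v' = 1`.
-/

set_option autoImplicit false

namespace Pool.Agent.Results.MP_ad5e8e_lc.FormalDegree

open Pool.Agent.W896.RK Pool.Agent.W896.FD Pool.Agent.K7.H45.FDT

/-- The bit `(i, s, j)` has the weight `2 ^ j` in the smaller (`s = false`) or larger (`s = true`)
end of the edge in the place `i` of the list; all the vertices are less than `2 m ≤ 2 ^ (w + 1)`. Let
`U r` (`r` in a finite nonempty set) be circuits none of which accepts a list of the `m` edges of a
simple graph with a triangle, and suppose that every list of the `m` edges of a triangle-free graph
is accepted by at least a `2 ^ (- ⌊m / 2 ^ (240 (k + 1))⌋)` fraction of them. If in each `U r` the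
formal degrees in the least significant bits of the larger ends of the edges sum up to at most `k m`,
then some `U r` has `g` gates with `m ≤ 2 ^ (240 (k + 1)) (⌊log₂ g⌋ + 1)`. -/
theorem result (k m w : ℕ) (hw : 2 * m ≤ 2 ^ (w + 1))
    (R : Type) [Fintype R] [Nonempty R] (U : R → Circ (Fin m × Bool × Fin (w + 1)))
    (hU : ∀ r x, EdgeList x → (U r).Val x (U r).out → ¬ HasTriangle x)
    (hc : ∀ x, EdgeList x → ¬ HasTriangle x →
      Nat.card R ≤ 2 ^ (m / 2 ^ (240 * (k + 1))) * Nat.card {r // (U r).Val x (U r).out})
    (hdeg : ∀ r, ∃ f : (U r).G → Fin m × Bool × Fin (w + 1) → ℕ, IsDeg (U r) id f ∧
      ∑ i, f (U r).out (i, true, 0) ≤ k * m) :
    ∃ r, m ≤ 2 ^ (240 * (k + 1)) * (Nat.log 2 (Fintype.card (U r).G) + 1) :=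
  edge k m w hw R U hU hc hdeg

end Pool.Agent.Results.MP_ad5e8e_lc.FormalDegree
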