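import Pool.Agent.K7.H45.TD3.Main

/-!
# Triangle detection with randomised circuits of depth three

The input is the list of the `n` edges of a simple graph; the vertices are words of
`Nat.size n + 6` bits, so that there are at most `128 n` vertices, and the circuits get the bits of
the two ends of every edge of the list. We show that randomised circuits of depth three (any
fan-in, free negations, bounded two-sided error, any distribution of circuits for every `n`) that
find out whether the graph has a triangle have an expected number of `Ω (n ^ (2 - δ))` gates, for
every `δ > 0`. So for this model of computation there is a superlinear lower bound
`s ^ (1 + 1 - o(1))` of the kind that is asked for.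

Proof. The two bottom levels of a circuit of depth three with few gates are removed by opening
random bits (a variable is opened when both of its literals are true); this is the method for the
Orthogonal Vectors problem, for 3SUM and for Exact Triangle in the library. Here the two hard
functions are an OR of conjunctions of `κ` bits and a disjointness function with two rows. The
names of the ends of the edges have a kind, a tag `(e, ρ)` and a code: for every tag there is one
edge `v v'` whose first end is coded by the first half of the AND-row of the tag and its second end
by the second half, and there are `b` edges `u_i v` and `b` edges `u'_j v'`, where the codes of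
`u_i` and `u'_j` come from the two columns `i` and `j` and are equal if and only if both columns are
open; the AND-row is written as it is in one of the edges and in complemented form in the other, so
that the ends coincide if and only if no bit of the AND-row is open. With `n` about `2 b m r` this
gives the exponent `2`: names of `log n` bits hold both a column number and half of an AND-row with
about `2 log n` bits.
-/

set_option autoImplicit false

namespace Pool.Agent.Results.MP_ad5e8e_lc.RandomizedDepthThree

open Pool.Agent.H596R2.D3 Pool.Agent.H596R2.D3R Pool.Agent.K7.H45.TD3

/-- For all `ε, δ > 0` there is a `c > 0` such that for all `n ≥ 2` every randomised circuit of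
depth three (the circuit `C l` is chosen with the probability `w l`) that, given the list of the `n`
different edges of any simple graph with the vertex set `Vtx n`, says with probability at least
`1/2 + ε` correctly whether the graph has a triangle, has an expected number of at least
`c n ^ (2 - δ)` gates. Here `Vtx n` has at most `128 n` elements. -/
theorem result (ε δ : ℝ) (hε : 0 < ε) (hδ : 0 < δ) :
    ∃ c : ℝ, 0 < c ∧ ∀ n : ℕ, 2 ≤ n → Fintype.card (Vtx n) ≤ 128 * n ∧
      ∀ (L : Type) [Fintype L] (w : L → ℝ) (C : L → Circuit (EBit n) 3),
        (∀ l, 0 ≤ w l) → ∑ l, w l = 1 →
        (∀ z, ValidList z → 1 / 2 + ε ≤ success w C z (HasTriangle z)) →
        c * (n : ℝ) ^ (2 - δ) ≤ expSize w C := by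
  obtain ⟨c, hc, h⟩ := tri_exp ε δ hε hδ
  exact ⟨c, hc, fun n hn => ⟨card_vtx n (by omega), h n hn⟩⟩

end Pool.Agent.Results.MP_ad5e8e_lc.RandomizedDepthThree
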