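import Mathlib
import Pool.Agent.K7.H17.SD.Main

/-!
# Triangle detection needs `n ^ (4 / 3 - ε)` gates in small depth

The input is the list of the `n` edges of a simple graph with at most `8 n` vertices; a circuit
gets the bits of the names of the two ends of every edge. Public-coin interactive proofs of
triangle-freeness with `g` bits from the prover whose verifier is a circuit of unbounded fan-in and
of depth `d`, where `C d log (log n + g + 2) ≤ log n`, need more than `n ^ (4 / 3 - ε)` gates. For
`g = 0` these are the randomized circuits with two-sided error.

Proof. There are three classes of `g = q ^ 3` blocks of `q` vertices, and one possible edge between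
any two blocks of different classes. Which edge it is comes from a sparse random table with a row
for every pair of blocks and a bit for every possible edge; a row without a unique open bit gives
an edge far away, and an edge between blocks of the classes 3 and 1 is also replaced when it closes
a triangle. (There are about `g ^ 3 / q ^ 3` triangles before this step, less than the number
`g ^ 2` of edges.) So the random graph is triangle-free, and the input bits are shallow decision
trees after the random table is masked. A triangle is planted by opening three bits of three empty
rows; its edges are not removed. All graphs with one or two of the three planted edges are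
values of the random table, and a circuit that notices the triangle has a gate one of whose initial
parts has a second-order coefficient at two of the three edges. By a switching lemma each gate has
few such pairs of positions in a random restriction. A pair of positions has the weight `q ^ 4`,
while there are `g ^ 3 q ^ 3` possible triangles; this gives about `g ^ 3 / q = (g ^ 2) ^ (4 / 3)`
gates.
-/

open SmallDepth

namespace Pool.Agent.Results.MP_ad5e8e_lc.SmallDepthGates

open Pool.Agent.K7.H17.SD

theorem result (ε : ℝ) (hε : 0 < ε) : ∃ C : ℝ, 0 < C ∧ ∀ n d g S : ℕ, 2 ≤ n → 1 ≤ d →
    C * (d * Real.log (Real.log n + g + 2)) ≤ Real.log n →
    ∀ G : Game (EBit n), G.Bounded d S g →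
    (∀ z, ValidList z → ¬ HasTriangle z → 2 / 3 ≤ G.value z) →
    (∀ z, ValidList z → HasTriangle z → G.value z ≤ 1 / 3) →
    (n : ℝ) ^ (4 / 3 - ε) < S := tri_game ε hε

end Pool.Agent.Results.MP_ad5e8e_lc.SmallDepthGates
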